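import Pool.Agent.Helper870.MV.F2
import Pool.Agent.Helper870.MV.F3
import Pool.Agent.Helper870.MV.F4
import Pool.Agent.Helper870.MV.F5
import Pool.Agent.Helper870.MV.F6
import Pool.Agent.Helper870.MV.F7

set_option autoImplicit false

open MeasureTheory Filter Finset

noncomputable section

namespace Pool.Agent.Results.MP_0b18d4_pr.VarianceFourThirds

/-- `E|X_t|²` for the walk on the randomly oriented Manhattan lattice, p = 1/2 (the expression of the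
frozen statement): `ω (inl n)` is the n-th coin, `ω (inr (inl y))` the orientation of the row `y`,
`ω (inr (inr x))` the orientation of the column `x`, all independent and fair. -/
def msd (t : ℕ) : ℝ :=
  ∫ ω : ℕ ⊕ (ℤ ⊕ ℤ) → Bool,
    (fun p : ℤ × ℤ => ((p.1 : ℝ) ^ 2 + (p.2 : ℝ) ^ 2))
      (Nat.rec (motive := fun _ => ℤ × ℤ) ((0 : ℤ), (0 : ℤ))
        (fun n x =>
          if ω (Sum.inl n) = true then
            (x.1 + (if ω (Sum.inr (Sum.inl x.2)) = true then (1 : ℤ) else -1), x.2)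
          else
            (x.1, x.2 + (if ω (Sum.inr (Sum.inr x.1)) = true then (1 : ℤ) else -1)))
        t)
    ∂(Measure.infinitePi
        (fun _ : ℕ ⊕ (ℤ ⊕ ℤ) => (PMF.uniformOfFintype Bool).toMeasure))

theorem msd_eq (t : ℕ) : msd t = MV.V t := rfl

/-- Growth of the mean squared displacement. -/
theorem result :
    (∃ c : ℝ, 0 < c ∧
      (∀ T : ℕ, 1 ≤ T → ∃ t : ℕ, 1 ≤ t ∧ t ≤ T ∧ c * (T:ℝ)^(2/3:ℝ) ≤ (t:ℝ) ∧
        c * (t:ℝ)^(4/3:ℝ) ≤ msd t) ∧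
      (∀ T : ℕ, 1 ≤ T → c * (T:ℝ)^(9/7:ℝ) ≤ (∑ t ∈ Icc 1 T, msd t) / (T:ℝ)) ∧
      (∀ t : ℕ, 1 ≤ t → c * (t:ℝ)^(5/4:ℝ) ≤ msd t ∧ msd t ≤ 104 * (t:ℝ)^(3/2:ℝ))) ∧
    (∀ β C : ℝ, 1 < β → 0 < C →
      (∀ T : ℕ, 1 ≤ T → (∑ t ∈ Icc 1 T, msd t) / (T:ℝ) ≤ C * (T:ℝ)^β) →
      ∃ c : ℝ, 0 < c ∧ ∀ t : ℕ, 1 ≤ t → c * (t:ℝ)^(2 - β/2) ≤ msd t ∧ msd t ≤ 4 * C * (t:ℝ)^β) ∧
    ((∀ ε : ℝ, 0 < ε → ∃ C : ℝ, ∀ T : ℕ, 1 ≤ T →
        (∑ t ∈ Icc 1 T, msd t) / (T:ℝ) ≤ C * (T:ℝ)^(4/3 + ε)) ↔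
      Tendsto (fun t : ℕ => Real.log (msd t) / Real.log (t:ℝ)) atTop (nhds (4/3))) := by
  simp only [msd_eq]
  refine ⟨?_, fun β C hβ hC H => MV.fin5 β C hβ hC H, MV.fin6, fun h => MV.fin7 h ?_⟩
  · obtain ⟨c2, h2, H2⟩ := MV.fin2
    obtain ⟨c3, h3, H3⟩ := MV.fin3
    obtain ⟨c4, h4, H4⟩ := MV.fin4
    refine ⟨min c2 (min c3 c4), lt_min h2 (lt_min h3 h4), ?_, ?_, ?_⟩
    · intro T hT
      obtain ⟨t, a, b, d, e⟩ := H2 T hT
      refine ⟨t, a, b, le_trans ?_ d, le_trans ?_ e⟩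
      · exact mul_le_mul_of_nonneg_right (min_le_left _ _) (by positivity)
      · exact mul_le_mul_of_nonneg_right (min_le_left _ _) (by positivity)
    · intro T hT
      refine le_trans ?_ (H3 T hT)
      exact mul_le_mul_of_nonneg_right ((min_le_right _ _).trans (min_le_left _ _)) (by positivity)
    · intro t ht
      refine ⟨le_trans ?_ (H4 t ht).1, (H4 t ht).2⟩
      exact mul_le_mul_of_nonneg_right ((min_le_right _ _).trans (min_le_right _ _)) (by positivity)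
  · intro t ht
    obtain ⟨c4, h4, H4⟩ := MV.fin4
    have : 0 < c4 * (t:ℝ)^(5/4:ℝ) := by
      have : (0:ℝ) < t := by exact_mod_cast ht
      positivity
    exact this.trans_le (H4 t ht).1

end Pool.Agent.Results.MP_0b18d4_pr.VarianceFourThirds
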